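import Pool.Agent.L0h7.KF.Stm
import Pool.Agent.L0h6.KN.REP

/-! # Project KF, module REP2 -/

set_option autoImplicit false
set_option linter.all false

open CategoryTheory

noncomputable section

namespace Pool.Agent.L0h84.KF

open Pool.Agent.L0h7.KN Pool.Agent.L0h7.KF Pool.Agent.Y75.NK

theorem rep_coef {k : Type} [Ring k] {E : Type} [Group E] (a : MonoidAlgebra k E) :
    ∃ T : Finset k, ∀ (A : Type) [Ring A] (θ : A →+* k), (∀ t ∈ T, t ∈ θ.range) →
      ∃ b, MonoidAlgebra.mapRingHom E θ b = a := by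
  classical
  induction a using MonoidAlgebra.induction_linear with
  | zero => exact ⟨∅, fun A _ θ _ => ⟨0, map_zero _⟩⟩
  | add x y hx hy =>
    obtain ⟨T, hT⟩ := hx
    obtain ⟨T', hT'⟩ := hy
    refine ⟨T ∪ T', fun A _ θ h => ?_⟩
    obtain ⟨b, hb⟩ := hT A θ fun t ht => h t (Finset.mem_union_left _ ht)
    obtain ⟨b', hb'⟩ := hT' A θ fun t ht => h t (Finset.mem_union_right _ ht)
    exact ⟨b + b', by rw [map_add, hb, hb']⟩
  | single x r =>
    refine ⟨{r}, fun A _ θ h => ?_⟩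
    obtain ⟨y, hy⟩ := h r (Finset.mem_singleton_self _)
    refine ⟨MonoidAlgebra.single x y, ?_⟩
    rw [MonoidAlgebra.mapRingHom_single, hy]

theorem gmap_eq {A B : Type} [Ring A] [Ring B] {E H : Type} [Group E] [Group H] (θ : A →+* B)
    (f : E →* H) :
    gmap θ f = (MonoidAlgebra.mapDomainRingHom B f).comp (MonoidAlgebra.mapRingHom E θ) := by
  unfold gmap
  apply MonoidAlgebra.ringHom_ext
  · intro a
    simp
  · intro x
    simp

/-- **REP2** -/
theorem t_REP2 : S_REP2 := by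
  classical
  intro k _ m G e
  obtain ⟨n, M₀, f, hf⟩ := Pool.Agent.L0h6.KN.t_REP k m G e
  choose T hT using fun i j => rep_coef (M₀ i j)
  obtain ⟨U, hU⟩ : ∃ U : Finset k, U = Finset.univ.biUnion fun i => Finset.univ.biUnion (T i) :=
    ⟨_, rfl⟩
  let θ : Zp U.card →+* k :=
    MvPolynomial.eval₂Hom (Int.castRingHom k) (fun i => ((U.equivFin.symm i : U) : k))
  have hθ : ∀ t ∈ U, t ∈ θ.range := by
    intro t ht
    refine ⟨MvPolynomial.X (U.equivFin ⟨t, ht⟩), ?_⟩
    show MvPolynomial.eval₂Hom (Int.castRingHom k) (fun i => ((U.equivFin.symm i : U) : k))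
      (MvPolynomial.X (U.equivFin ⟨t, ht⟩)) = t
    rw [MvPolynomial.eval₂Hom_X', Equiv.symm_apply_apply]
  have h1 : ∀ i j, ∃ b, MonoidAlgebra.mapRingHom ((EF m).obj (fm n)) θ b = M₀ i j := by
    intro i j
    refine hT i j _ θ fun t ht => hθ t ?_
    rw [hU, Finset.mem_biUnion]
    refine ⟨i, Finset.mem_univ i, ?_⟩
    rw [Finset.mem_biUnion]
    exact ⟨j, Finset.mem_univ j, ht⟩
  choose M hM using h1
  refine ⟨U.card, n, Matrix.of M, θ, f, ?_⟩
  rw [← hf]
  ext1 i j
  show gmap θ ((EF m).map f).hom (M i j) = MonoidAlgebra.mapDomainRingHom k ((EF m).map f).hom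
    (M₀ i j)
  rw [gmap_eq, RingHom.comp_apply, hM i j]

end Pool.Agent.L0h84.KF
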