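import Pool.Agent.L0h7.KF.Stm

/-! # Project KF, module CFR -/

set_option autoImplicit false
set_option linter.all false

open CategoryTheory

noncomputable section

namespace Pool.Agent.L0h84.KF

open Pool.Agent.L0h7.KN Pool.Agent.L0h7.KF Pool.Agent.Y75.NK

/-- a common later stage -/
theorem ring_stage {D : ℕ ⥤ RingCat.{0}} {B : RingCat.{0}} {c : ∀ i, D.obj i ⟶ B}
    (h : RCol D B c) {ι : Type} (i : ℕ) (a : ι → D.obj i) (s : Finset ι)
    (hs : ∀ x ∈ s, (c i).hom (a x) = 0) :
    ∃ (j : ℕ) (f : i ⟶ j), ∀ x ∈ s, (D.map f).hom (a x) = 0 := by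
  classical
  induction s using Finset.induction_on with
  | empty => exact ⟨i, 𝟙 i, by simp⟩
  | insert x s hx ih =>
    obtain ⟨j₁, f₁, h₁⟩ := ih (fun y hy => hs y (Finset.mem_insert_of_mem hy))
    obtain ⟨j₂, f₂, h₂⟩ := h.inj i (a x) (hs x (Finset.mem_insert_self _ _))
    refine ⟨max j₁ j₂, f₁ ≫ homOfLE (le_max_left _ _), fun y hy => ?_⟩
    rcases Finset.mem_insert.1 hy with rfl | hy
    · have e : f₁ ≫ homOfLE (le_max_left j₁ j₂) = f₂ ≫ homOfLE (le_max_right j₁ j₂) :=
        Subsingleton.elim _ _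
      rw [e, D.map_comp]
      show (D.map (homOfLE (le_max_right j₁ j₂))).hom ((D.map f₂).hom (a y)) = 0
      rw [h₂, map_zero]
    · rw [D.map_comp]
      show (D.map (homOfLE (le_max_left j₁ j₂))).hom ((D.map f₁).hom (a y)) = 0
      rw [h₁ y hy, map_zero]

/-- two elements at a common stage -/
theorem comp_app {D : ℕ ⥤ RingCat.{0}} {B : RingCat.{0}} {c : ∀ i, D.obj i ⟶ B}
    (h : ∀ {i j : ℕ} (f : i ⟶ j), D.map f ≫ c j = c i) {i j : ℕ} (f : i ⟶ j) (a : D.obj i) :
    (c j).hom ((D.map f).hom a) = (c i).hom a := by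
  rw [← h f]
  rfl

/-- **CFR** -/
theorem t_CFR : S_CFR := by
  intro P D B c h
  have hcomp : ∀ {i j : ℕ} (f : i ⟶ j), (D ⋙ cg P).map f ≫ (cg P).map (c j) =
      (cg P).map (c i) := by
    intro i j f
    rw [Functor.comp_map, ← (cg P).map_comp, h.comp]
  refine ⟨hcomp, ?_, ?_⟩
  · intro b
    induction b using MonoidAlgebra.induction_linear with
    | zero => exact ⟨0, 0, map_zero _⟩
    | add x y hx hy =>
      obtain ⟨i, a, ha⟩ := hx
      obtain ⟨j, b, hb⟩ := hy
      refine ⟨max i j, ((D ⋙ cg P).map (homOfLE (le_max_left i j))).hom a +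
        ((D ⋙ cg P).map (homOfLE (le_max_right i j))).hom b, ?_⟩
      rw [map_add, comp_app hcomp, comp_app hcomp, ha, hb]
      rfl
    | single m r =>
      obtain ⟨i, a, ha⟩ := h.surj r
      refine ⟨i, MonoidAlgebra.single m a, ?_⟩
      show MonoidAlgebra.mapRingHom P (c i).hom (MonoidAlgebra.single m a) = _
      rw [MonoidAlgebra.mapRingHom_single, ha]
  · intro i a ha
    change MonoidAlgebra (D.obj i) P at a
    have ha' : MonoidAlgebra.mapRingHom P (c i).hom a = 0 := ha
    obtain ⟨j, f, hf⟩ := ring_stage h i (fun m => a.coeff m) a.coeff.support (by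
      intro m _
      have := congrArg (fun z : MonoidAlgebra B P => z.coeff m) ha'
      simp only [MonoidAlgebra.coeff_mapRingHom] at this
      exact this)
    refine ⟨j, f, ?_⟩
    show MonoidAlgebra.mapRingHom P (D.map f).hom a = 0
    ext m
    rw [MonoidAlgebra.coeff_mapRingHom]
    by_cases hm : m ∈ a.coeff.support
    · exact hf m hm
    · rw [Finsupp.notMem_support_iff.1 hm, map_zero]
      rfl

end Pool.Agent.L0h84.KF
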